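import Pool.Agent.Lib.helper16.GLS7

set_option maxHeartbeats 800000

namespace Pool.Agent.H.MP_9bf990_al

open Subgroup Function RegularWreathProduct Pool.Agent.Lib.GLS

variable {F : (G : Type) → [Group G] → Prop}

def Cl (F : (G : Type) → [Group G] → Prop) {G : Type} [Group G] (S : Set (Subgroup G)) : Prop :=
  ∀ K ∈ S, ∀ L : Subgroup G, L < K → (∀ M : Subgroup G, L ≤ M → M ≤ K → M = L ∨ M = K) →
    (∃ N : Subgroup K, ∃ _ : N.Normal, F (K ⧸ N) ∧ N ≤ L.subgroupOf K) → L ∈ S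

def T (F : (G : Type) → [Group G] → Prop) (G : Type) [Group G] : Set (Subgroup G) :=
  {H | ∀ S : Set (Subgroup G), ⊤ ∈ S → Cl F S → H ∈ S}

theorem T_step (hF : SF F) {G : Type} [Group G] [Finite G] {K L : Subgroup G} (hK : K ∈ T F G)
    (h : L < K) (hm : ∀ M : Subgroup G, L ≤ M → M ≤ K → M = L ∨ M = K) (hf : F K) : L ∈ T F G :=
  fun S h1 h2 => h2 K (hK S h1 h2) L h hm ⟨⊥, inferInstance, hF.quo K ⊥ hf, bot_le⟩

theorem T_down (hF : SF F) {G : Type} [Group G] [Finite G] {L : Subgroup G}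
    (hf : ∀ M : Subgroup G, L ≤ M → F M) : L ∈ T F G := by
  have key : ∀ K : Subgroup G, K ∈ T F G → L ≤ K → L ∈ T F G := by
    intro K
    induction K using WellFoundedLT.induction with
    | _ K ih =>
      intro hK hle
      rcases hle.eq_or_lt with rfl | hlt
      · exact hK
      obtain ⟨M, ⟨h1, h2⟩, hm⟩ := (wellFounded_gt (α := Subgroup G)).has_min
        {M | L ≤ M ∧ M < K} ⟨L, le_rfl, hlt⟩
      refine ih M h2 (T_step hF hK h2 (fun M' k1 k2 => ?_) (hf K hle)) h1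
      by_contra hc
      push Not at hc
      exact hm M' ⟨h1.trans k1, lt_of_le_of_ne k2 hc.2⟩ (lt_of_le_of_ne k1 hc.1.symm)
  exact key ⊤ (fun S h _ => h) le_top

theorem T_sec (hF : SF F) {p : ℕ} {Γ X : Type} [Group Γ] [Finite Γ] [Group X] [Finite X]
    (hX : ∀ (E : Type) [Group E] [Finite E] (π : E →* X), Surjective π → IsPGroup p π.ker → F E)
    (π : Γ →* X) (hP : IsPGroup p π.ker) (s : X →* Γ) (hs : ∀ x, π (s x) = x)
    {Y : Subgroup X} (hY : ∀ Z : Subgroup X, Y ≤ Z → Z = Y ∨ Z = ⊤) (hne : Y ≠ ⊤) :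
    Y.map s ∈ T F Γ := by
  have hf : ∀ M : Subgroup Γ, (⊤ : Subgroup X).map s ≤ M → F M := by
    intro M hM
    refine hX M (π.comp M.subtype) (fun x => ⟨⟨s x, hM ⟨x, trivial, rfl⟩⟩, hs x⟩) ?_
    rw [← MonoidHom.comap_ker]
    exact hP.comap_subtype
  have hinj : Injective s := LeftInverse.injective hs
  refine T_step hF (T_down hF hf) ?_ (fun M h1 h2 => ?_) (hf _ le_rfl)
  · exact (map_lt_map_iff_of_injective hinj).2 (lt_top_iff_ne_top.2 hne)
  · have e : M = (M.comap s).map s := by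
      rw [map_comap_eq_self]
      rwa [MonoidHom.range_eq_map]
    rcases hY (M.comap s) (map_le_iff_le_comap.1 h1) with h | h
    · left; rw [e, h]
    · right; rw [e, h]

theorem main (hF : SF F)
    (hL : ∀ (G : Type) [Group G] [Finite G], ∀ A ∈ T F G, ∀ B ∈ T F G, A ⊔ B ∈ T F G)
    {p : ℕ} {X : Type} [Group X] [Finite X]
    (hX : ∀ (E : Type) [Group E] [Finite E] (π : E →* X), Surjective π → IsPGroup p π.ker → F E)
    {Y : Subgroup X} (hY : ∀ Z : Subgroup X, Y ≤ Z → Z = Y ∨ Z = ⊤) (hne : Y ≠ ⊤)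
    {U B : Type} [Group U] [Finite U] [Group B] (a : Y → U → U) (j : U →* B) (ρ : Y →* B)
    (hU : IsPGroup p U) (ha : Irr a) (hj : ∀ b u, ρ b * j u * (ρ b)⁻¹ = j (a b u))
    (hg : ∀ b, ∃ u c, b = j u * ρ c) (hk : ∀ b, (∀ u, a b u = u) → ρ b = 1) : F B := by
  classical
  by_contra hB
  obtain ⟨n, hn⟩ := isPGroup_iff_exists_pow_pow_eq_one.1 hU
  have a1 : ∀ b, a b 1 = 1 := fun b => by
    have := ha.hom b 1 1
    rw [mul_one] at this
    exact left_eq_mul.1 this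
  have ai : ∀ b u, a b u⁻¹ = (a b u)⁻¹ := fun b u =>
    eq_inv_of_mul_eq_one_left (by rw [← ha.hom, inv_mul_cancel, a1])
  have hnt : ∃ y u, a y u ≠ u := by
    by_contra hc
    push Not at hc
    have h1 : F (U × X) := hX _ (MonoidHom.snd U X) Prod.snd_surjective (by
      rintro ⟨⟨u, x⟩, h⟩
      have hx : x = 1 := h
      exact ⟨n, Subtype.ext (Prod.ext (hn u) (by simp [hx]))⟩)
    refine hB (hF.img (j.comp (MonoidHom.fst U X)) (fun b => ?_) h1)
    obtain ⟨u, c, rfl⟩ := hg b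
    exact ⟨(u, 1), by simp [hk c (hc c)]⟩
  let Gs : Subgroup (U ≀ᵣ X) :=
    { carrier := {w | ∀ x (y : Y), w.left (x * y) = a y⁻¹ (w.left x)}
      one_mem' := fun x y => (a1 _).symm
      mul_mem' := by
        intro u v hu hv x y
        simp only [mul_left, Pi.mul_apply, ← mul_assoc, hu x y, hv _ y, ha.hom]
      inv_mem' := by
        intro u hu x y
        simp only [inv_left, Pi.inv_apply, ← mul_assoc, hu _ y, ai] }
  let π : Gs →* X := rightHom.comp Gs.subtype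
  let s : X →* Gs := (inl : X →* U ≀ᵣ X).codRestrict Gs fun x z y => (a1 _).symm
  have hP : IsPGroup p π.ker := by
    rintro ⟨⟨w, hw⟩, h⟩
    have h1 : w.right = 1 := h
    refine ⟨n, Subtype.ext (Subtype.ext ?_)⟩
    show w ^ p ^ n = 1
    have : ∀ k : ℕ, w ^ k = ⟨w.left ^ k, 1⟩ := by
      intro k
      induction k with
      | zero => simp; rfl
      | succ k ih => rw [pow_succ, ih]; ext <;> simp [h1, pow_succ]
    rw [this]
    ext x
    · simp [hn]
    · rfl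
  have ev : ∀ (w : Gs) (y : Y), w.1.left (y : X)⁻¹ = a y (w.1.left 1) := by
    intro w y
    have := w.2 1 y⁻¹
    simpa using this
  let Q : Subgroup Gs :=
    { carrier := {w | π w ∈ Y ∧ w.1.left 1 = 1}
      one_mem' := ⟨by simp, rfl⟩
      mul_mem' := by
        rintro u v ⟨h1, h2⟩ ⟨k1, k2⟩
        refine ⟨by rw [map_mul]; exact Y.mul_mem h1 k1, ?_⟩
        show u.1.left 1 * v.1.left ((π u)⁻¹ * 1) = 1
        rw [mul_one, ev v ⟨_, h1⟩, h2, k2, a1, mul_one]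
      inv_mem' := by
        rintro u ⟨h1, h2⟩
        refine ⟨by rw [map_inv]; exact Y.inv_mem h1, ?_⟩
        show (u.1.left (π u * 1))⁻¹ = 1
        have := ev u ⟨_, Y.inv_mem h1⟩
        rw [mul_one, inv_eq_one, ← a1 ⟨_, Y.inv_mem h1⟩, ← h2, ← this]
        simp }
  obtain ⟨x0, hx0⟩ : ∃ x0, x0 ∉ Y := by
    by_contra hc
    push Not at hc
    exact hne ((eq_top_iff' Y).2 hc)
  obtain ⟨y0, u0, hyu⟩ := hnt
  have hu0 : u0 ≠ 1 := fun h => hyu (by rw [h, a1])
  let f : X → U := fun x => if h : x0⁻¹ * x ∈ Y then a (⟨_, h⟩ : Y)⁻¹ u0 else 1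
  let v : Gs := ⟨⟨f, 1⟩, by
    intro x y
    show f (x * y) = a y⁻¹ (f x)
    by_cases h : x0⁻¹ * x ∈ Y
    · have h' : x0⁻¹ * (x * y) ∈ Y := by rw [← mul_assoc]; exact Y.mul_mem h y.2
      simp only [f, dif_pos h, dif_pos h']
      rw [← ha.mul, ← mul_inv_rev]
      congr 2
      exact Subtype.ext (mul_assoc _ _ _).symm
    · have h' : x0⁻¹ * (x * y) ∉ Y := by rwa [← mul_assoc, Y.mul_mem_cancel_right y.2]
      simp only [f, dif_neg h, dif_neg h', a1]⟩
  have hvQ : v ∈ Q := ⟨Y.one_mem, by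
    show f 1 = 1
    simp only [f]
    rw [dif_neg (by simpa using hx0)]⟩
  have hfx : f x0 = u0 := by
    simp only [f]
    rw [dif_pos (by simp), ← ha.one u0]
    congr 1
    · exact Subtype.ext (by simp)
    · exact ha.one u0
  have hy1 : ∃ y : Y, f ((y : X)⁻¹ * x0) ≠ f x0 := by
    by_contra hc
    push Not at hc
    have h1 : ∀ y : Y, ∃ h : x0⁻¹ * ((y : X)⁻¹ * x0) ∈ Y, a (⟨_, h⟩ : Y)⁻¹ u0 = u0 := by
      intro y
      have := hc y
      rw [hfx] at this
      by_cases h : x0⁻¹ * ((y : X)⁻¹ * x0) ∈ Y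
      · exact ⟨h, by simpa only [f, dif_pos h] using this⟩
      · simp only [f, dif_neg h] at this
        exact absurd this.symm hu0
    choose h1 h2 using h1
    have h3 : Injective fun y : Y => (⟨_, h1 y⟩ : Y)⁻¹ := by
      intro y z h
      simpa using h
    obtain ⟨y, hy⟩ := Finite.injective_iff_surjective.1 h3 y0
    exact hyu (by rw [← hy]; exact h2 y)
  obtain ⟨y1, hy1⟩ := hy1
  let s' : X →* Gs := (MulAut.conj v).toMonoidHom.comp s
  have hs' : ∀ x, π (s' x) = x := by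
    intro x
    show π (v * s x * v⁻¹) = x
    rw [map_mul, map_mul, map_inv, show π v = 1 from rfl]
    simp only [one_mul, inv_one, mul_one]
    rfl
  have hK := hL Gs _ (T_sec hF hX π hP s (fun _ => rfl) hY hne) _ (T_sec hF hX π hP s' hs' hY hne)
  set K0 := Y.map s ⊔ Y.map s' with hK0
  have hsQ : ∀ y ∈ Y, s y ∈ Q := fun y hy => ⟨hy, rfl⟩
  have hKQ : K0 ≤ Q := by
    refine sup_le (map_le_iff_le_comap.2 hsQ) (map_le_iff_le_comap.2 fun y hy => ?_)
    exact Q.mul_mem (Q.mul_mem hvQ (hsQ y hy)) (Q.inv_mem hvQ)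
  have hsK : ∀ y ∈ Y, s y ∈ K0 := fun y hy => mem_sup_left ⟨y, hy, rfl⟩
  let t : Gs := s' y1 * (s y1)⁻¹
  have htK : t ∈ K0 := K0.mul_mem (mem_sup_right ⟨y1, y1.2, rfl⟩) (K0.inv_mem (hsK _ y1.2))
  have ht1 : t.1.right = 1 := by
    show π t = 1
    rw [map_mul, hs', map_inv]
    exact mul_inv_cancel _
  have ht2 : t.1.left x0 ≠ 1 := by
    have : t.1.left x0 = f x0 * (f ((y1 : X)⁻¹ * x0))⁻¹ := by
      show ((⟨f, 1⟩ : U ≀ᵣ X) * inl (y1 : X) * (⟨f, 1⟩ : U ≀ᵣ X)⁻¹ * (inl (y1 : X))⁻¹).left x0 = _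
      simp
    rw [this]
    exact fun h => hy1 (mul_inv_eq_one.1 h).symm
  refine hK {K | ¬ (K0 ≤ K ∧ K ≤ Q)} (fun h => hx0 (h.2 (mem_top (s x0))).1) ?_ ⟨le_rfl, hKQ⟩
  rintro K hKS L hlt hm ⟨N, hN, hFN, hNL⟩ ⟨h1, h2⟩
  have h3 : K0 ≤ K := h1.trans hlt.le
  have h4 : ¬ K ≤ Q := fun h => hKS ⟨h3, h⟩
  rcases hY (K.map π) (fun y hy => ⟨s y, h3 (hsK y hy), rfl⟩) with h5 | h5
  · have hr : ∀ k : K, π k ∈ Y := fun k => h5 ▸ ⟨k, k.2, rfl⟩
    let r : K →* Y := (π.comp K.subtype).codRestrict Y hr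
    have hl : ∀ k l : K, (k * l).1.1.left 1 = k.1.1.left 1 * a (r k) (l.1.1.left 1) := by
      intro k l
      show k.1.1.left 1 * l.1.1.left ((π k)⁻¹ * 1) = _
      rw [mul_one, ev l ⟨_, hr k⟩]
      rfl
    let sk : Y → K := fun y => ⟨s y, h3 (hsK y y.2)⟩
    have hsk : ∀ y, (sk y).1.1.left 1 = 1 := fun _ => rfl
    have hsr : ∀ y, r (sk y) = y := fun _ => rfl
    let W1 : Subgroup U :=
      { carrier := {u | ∃ k : K, r k = 1 ∧ k.1.1.left 1 = u}
        one_mem' := ⟨1, map_one r, rfl⟩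
        mul_mem' := by
          rintro _ _ ⟨k, k1, rfl⟩ ⟨l, l1, rfl⟩
          exact ⟨k * l, by rw [map_mul, k1, l1, mul_one], by rw [hl, k1, ha.one]⟩
        inv_mem' := by
          rintro _ ⟨k, k1, rfl⟩
          refine ⟨k⁻¹, by rw [map_inv, k1, inv_one], eq_inv_of_mul_eq_one_right ?_⟩
          have := hl k k⁻¹
          rw [k1, ha.one, mul_inv_cancel] at this
          exact this.symm }
    have hW : ∀ k : K, k.1.1.left 1 ∈ W1 := fun k =>
      ⟨k * sk (r k)⁻¹, by rw [map_mul, hsr, mul_inv_cancel], by rw [hl, hsk, a1, mul_one]⟩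
    have hW1 : W1 = ⊤ := by
      refine (ha.irr W1 ?_).resolve_left fun h => h4 fun k hk => ⟨hr ⟨k, hk⟩, ?_⟩
      · rintro y _ ⟨k, -, rfl⟩
        have := hW (sk y * k)
        rwa [hl, hsk, one_mul, hsr] at this
      · have := hW ⟨k, hk⟩
        rwa [h, mem_bot] at this
    have hW2 : ∀ u, ∃ k : K, r k = 1 ∧ k.1.1.left 1 = u := fun u => by
      have : u ∈ W1 := hW1 ▸ mem_top u
      exact this
    let ψ : K →* B := MonoidHom.mk' (fun k => j (k.1.1.left 1) * ρ (r k)) (by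
      intro k l
      rw [hl, map_mul, map_mul, map_mul, ← hj]
      group)
    refine hB (hF.fac (QuotientGroup.mk' N) ψ (QuotientGroup.mk'_surjective N) (fun b => ?_) ?_ hFN)
    · obtain ⟨u, c, rfl⟩ := hg b
      obtain ⟨k, k1, rfl⟩ := hW2 u
      refine ⟨k * sk c, ?_⟩
      show j ((k * sk c).1.1.left 1) * ρ (r (k * sk c)) = _
      rw [hl, hsk, a1, mul_one, map_mul, k1, one_mul, hsr]
    · rw [QuotientGroup.ker_mk']
      intro m hm
      have hq : ∀ m ∈ N, m.1.1.left 1 = 1 := fun m hm => (h2 (hNL hm)).2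
      show j (m.1.1.left 1) * ρ (r m) = 1
      rw [hq m hm, map_one, one_mul]
      refine hk _ fun u => ?_
      obtain ⟨k, k1, rfl⟩ := hW2 u
      have h6 := hq _ (hN.conj_mem' m hm k)
      have h7 := hl k (k⁻¹ * m * k)
      rw [h6, a1, mul_one, show k * (k⁻¹ * m * k) = m * k by group, hl, hq m hm, one_mul] at h7
      exact h7
  · have : x0 ∈ K.map π := h5 ▸ mem_top x0
    obtain ⟨k, hkK, hkx⟩ := this
    have hkx' : k.1.right = x0 := hkx
    rcases hm (K ⊓ Y.comap π) (le_inf hlt.le fun l hl => (h2 hl).1) inf_le_left with h | h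
    · have h6 : k⁻¹ * t * k ∈ K ⊓ Y.comap π := by
        refine ⟨K.mul_mem (K.mul_mem (K.inv_mem hkK) (h3 htK)) hkK, ?_⟩
        show π (k⁻¹ * t * k) ∈ Y
        rw [map_mul, map_mul, show π t = 1 from ht1]
        simp
      rw [h] at h6
      have h7 := (h2 h6).2
      apply ht2
      have h8 : (k⁻¹ * t * k).1.left 1 = (k.1.left x0)⁻¹ * t.1.left x0 * k.1.left x0 := by
        show (k.1⁻¹ * t.1 * k.1).left 1 = _
        simp [hkx', ht1]
      rw [h8] at h7
      calc t.1.left x0 = k.1.left x0 * ((k.1.left x0)⁻¹ * t.1.left x0 * k.1.left x0) *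
            (k.1.left x0)⁻¹ := by group
        _ = 1 := by rw [h7]; simp
    · have : k ∈ K ⊓ Y.comap π := h.symm ▸ hkK
      exact hx0 (hkx ▸ this.2)

theorem coat (hF : SF F) (h1 : F Unit)
    (hL : ∀ (G : Type) [Group G] [Finite G], ∀ A ∈ T F G, ∀ B ∈ T F G, A ⊔ B ∈ T F G)
    {G : Type} [Group G] [Finite G] (hG : F G) {H : Subgroup G} (hH : IsCoatom H) : F H := by
  by_contra hn
  obtain ⟨B, _, _, φ, hφ, hB, hq⟩ := exminq F _ H rfl hn
  obtain ⟨p, hp, hO, U, _, _, a, j, ρ, hU, ha, -, hj, hg, hk⟩ := hF.data h1 hB hq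
  haveI := Fact.mk hp
  obtain ⟨X, _, _, σ, hσ, hP, hX⟩ := exO p _ G rfl
  have hFX := hF.img σ hσ hG
  let τ : H →* H.map σ := σ.subgroupMap H
  have hτ : Surjective τ := σ.subgroupMap_surjective H
  have hker : τ.ker ≤ φ.ker := by
    have := hO (τ.ker.map φ) (Normal.map inferInstance φ hφ) (by
      rintro _ ⟨h, hh, rfl⟩
      obtain ⟨k, k1, k2⟩ := hP h (congrArg Subtype.val hh)
      exact ⟨k, k1, by rw [← map_pow, show h ^ k = 1 from Subtype.ext k2, map_one]⟩)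
    rwa [Subgroup.map_eq_bot_iff] at this
  by_cases hne : H.map σ = ⊤
  · exact hB (hF.fac τ φ hτ hφ hker
      (hF.iso _ _ ⟨topEquiv.symm.trans (MulEquiv.subgroupCongr hne.symm)⟩ hFX))
  haveI : Nontrivial X := by
    by_contra hc
    rw [not_nontrivial_iff_subsingleton] at hc
    exact hne (Subsingleton.elim _ _)
  let φ' : H.map σ →* B := τ.liftOfRightInverse _ (rightInverse_surjInv hτ) ⟨φ, hker⟩
  have hφ' : Surjective φ' := by
    intro b
    obtain ⟨h, rfl⟩ := hφ b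
    exact ⟨τ h, MonoidHom.liftOfRightInverse_comp_apply _ _ _ _ _⟩
  refine hB (main hF hL (fun E _ _ π k1 k2 => hF.full hFX hX _ E π rfl k1 k2) (fun Z hZ => ?_) hne
    (fun y => a (φ' y)) j (ρ.comp φ') hU ⟨fun b => ha.hom _, fun b c u => ?_, fun u => ?_,
      fun S hS => ha.irr S fun b => ?_⟩ (fun b => hj _) (fun b => ?_) fun b => hk _)
  · rcases (map_le_iff_le_comap.1 hZ).eq_or_lt with h | h
    · left
      rw [h, map_comap_eq_self_of_surjective hσ]
    · right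
      rw [← map_comap_eq_self_of_surjective hσ Z, hH.2 _ h, map_top_of_surjective σ hσ]
  · rw [map_mul, ha.mul]
  · rw [map_one, ha.one]
  · obtain ⟨y, rfl⟩ := hφ' b
    exact hS y
  · obtain ⟨u, c, rfl⟩ := hg b
    obtain ⟨y, rfl⟩ := hφ' c
    exact ⟨u, y, rfl⟩

theorem her (hF : SF F) (h1 : F Unit)
    (hL : ∀ (G : Type) [Group G] [Finite G], ∀ A ∈ T F G, ∀ B ∈ T F G, A ⊔ B ∈ T F G) :
    ∀ (n : ℕ) (G : Type) [Group G] [Finite G], Nat.card G = n → F G → ∀ H : Subgroup G, F H := by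
  intro n
  induction n using Nat.strong_induction_on with
  | _ n ih =>
    intro G _ _ hn hG H
    rcases eq_top_or_exists_le_coatom H with rfl | ⟨M, hM, hle⟩
    · exact hF.iso _ _ ⟨topEquiv.symm⟩ hG
    · exact hF.iso _ _ ⟨subgroupOfEquivOfLe hle⟩
        (ih _ (hn ▸ lt_card hM.1) M rfl (coat hF h1 hL hG hM) _)

end Pool.Agent.H.MP_9bf990_al
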